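import Pool.Agent.Work.MP_d3dc9d_co.Periods

/-!
# The key combinatorial theorem on near-powers in curling sequences
-/

set_option autoImplicit false

namespace Pool.Agent.Work.MP_d3dc9d_co

/-- the prefix of length `m` of `x` ends with a `k`-th power -/
def HasPow (x : ℕ → ℕ) (m k : ℕ) : Prop := ∃ p, 0 < p ∧ k * p ≤ m ∧ PerOn x p (m - k * p) m

theorem Per.mul {f : ℕ → ℕ} {p L : ℕ} (h : Per f p L) (c : ℕ) : Per f (c * p) L := by
  intro i hi
  exact h.congr (by omega) hi (by simp [mul_comm c p])

/-- `(c, m, y, k)` is an event: the prefix of length `m ≥ n`, preceded by the letter `c`, is the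
`k`-th power of a word of length `y`, `k ≥ 3`, and the next letter is `k - 1`. -/
structure Event (x : ℕ → ℕ) (n c m y k : ℕ) : Prop where
  hk : 3 ≤ k
  hy : 0 < y
  hm : m + 1 = k * y
  per : Per x y m
  letter : x (y - 1) = c
  next : x m = k - 1
  hn : n ≤ m

/-- the curling rule -/
def Rule (x : ℕ → ℕ) (n : ℕ) : Prop := ∀ j, n ≤ j → HasPow x j (x j) ∧ ¬ HasPow x j (x j + 1)

theorem fw_ineq {x : ℕ → ℕ} {n a b m y k M z l : ℕ} (h1 : Event x n a m y k)
    (h2 : Event x n b M z l) (hab : a ≠ b) (hmM : m ≤ M) : (k - 1) * y < z := by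
  by_contra hcon
  push Not at hcon
  have hk := h1.hk
  have hy := h1.hy
  have hm := h1.hm
  have hz := h2.hy
  obtain ⟨q, rfl⟩ : ∃ q, k = q + 1 := ⟨k - 1, by omega⟩
  rw [Nat.add_sub_cancel] at hcon
  rw [Nat.add_mul, Nat.one_mul] at hm
  have hg : 0 < Nat.gcd y z := Nat.gcd_pos_of_pos_left _ hy
  have hper : Per x (Nat.gcd y z) m := h1.per.gcd (h2.per.mono hmM) (by omega)
  have hmod : (y - 1) % Nat.gcd y z = (z - 1) % Nat.gcd y z := by
    have e1 : (y - 1 + 1) ≡ (z - 1 + 1) [MOD Nat.gcd y z] := by
      rw [Nat.sub_add_cancel hy, Nat.sub_add_cancel hz]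
      exact ((Nat.modEq_zero_iff_dvd.2 (Nat.gcd_dvd_left y z)).trans
        (Nat.modEq_zero_iff_dvd.2 (Nat.gcd_dvd_right y z)).symm)
    exact Nat.ModEq.add_right_cancel' 1 e1
  have := hper.congr (i := y - 1) (j := z - 1) (by omega) (by omega) hmod
  rw [h1.letter, h2.letter] at this
  exact hab this

/-- Step A: the late event cannot have letter `3`. -/
theorem stepA {x : ℕ → ℕ} {n m y k M z l : ℕ} (hx : Rule x n) (h1 : Event x n 2 m y k)
    (h2 : Event x n 3 M z l) (hmM : m ≤ M) : False := by
  have hzy := fw_ineq h1 h2 (by norm_num) hmM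
  have hk := h1.hk
  have hy := h1.hy
  have hm := h1.hm
  have hz := h2.hy
  have hl := h2.hk
  have hM := h2.hm
  have hn := h1.hn
  obtain ⟨q, rfl⟩ : ∃ q, k = q + 1 := ⟨k - 1, by omega⟩
  rw [Nat.add_sub_cancel] at hzy
  rw [Nat.add_mul, Nat.one_mul] at hm
  have hq : 2 * y ≤ q * y := Nat.mul_le_mul_right y (by omega)
  have hl3 : 3 * z ≤ l * z := Nat.mul_le_mul_right z hl
  -- the letter at `2 z - 1`
  have e1 : x (2 * z - 1) = 3 := by
    have := h2.per (z - 1) (by omega)
    rw [h2.letter] at this
    rw [this]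
    congr 1
    omega
  have hpow := (hx (2 * z - 1) (by omega)).1
  rw [e1] at hpow
  obtain ⟨v, hv0, hv1, hv2⟩ := hpow
  -- shift it to the end
  have hM2 : 2 * z - 1 + (l - 2) * z = M := by
    obtain ⟨l', rfl⟩ : ∃ l', l = l' + 2 := ⟨l - 2, by omega⟩
    rw [Nat.add_sub_cancel]
    rw [Nat.add_mul] at hM
    omega
  have hpowM : HasPow x M 3 := by
    refine ⟨v, hv0, by omega, ?_⟩
    have hs := hv2.shift (h2.per.mul (l - 2)) (by omega)
    rw [hM2] at hs
    have : 2 * z - 1 - 3 * v + (l - 2) * z = M - 3 * v := by omega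
    rwa [this] at hs
  have hnM := (hx M (by omega)).2
  rw [h2.next] at hnM
  have hl4 : 4 ≤ l := by
    by_contra hcon
    have : l - 1 + 1 = 3 := by omega
    rw [this] at hnM
    exact hnM hpowM
  have hl4' : 4 * z ≤ l * z := Nat.mul_le_mul_right z hl4
  -- the letter at `3 z + y - 1`
  have e2 : x (3 * z + y - 1) = 2 := by
    rw [← h1.letter]
    apply h2.per.congr (by omega) (by omega)
    have : 3 * z + y - 1 = (y - 1) + z * 3 := by omega
    rw [this, Nat.add_mul_mod_self_left]
  have h3 := (hx (3 * z + y - 1) (by omega)).2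
  rw [e2] at h3
  exact h3 ⟨z, hz, by omega, (h2.per.mono (by omega)).perOn⟩

/-- Step B3: `k = 3` and `z ≤ 3 y` is impossible. -/
theorem stepB3 {x : ℕ → ℕ} {n y M z l : ℕ} (hx : Rule x n) (h1 : Event x n 3 (3 * y - 1) y 3)
    (h2 : Event x n 2 M z l) (hyz : 2 * y < z) (hz3 : z ≤ 3 * y) : False := by
  have hy := h1.hy
  have hz := h2.hy
  have hl := h2.hk
  have hM := h2.hm
  have hn := h1.hn
  have hl3 : 3 * z ≤ l * z := Nat.mul_le_mul_right z hl
  have perY := h1.per
  have perZ := h2.per
  have xy : x (y - 1) = 3 := h1.letter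
  have xm : x (3 * y - 1) = 2 := h1.next
  have xz : x (z - 1) = 2 := h2.letter
  have nm : ¬ HasPow x (3 * y - 1) 3 := by
    have := (hx (3 * y - 1) hn).2
    rwa [xm] at this
  have nM : ¬ HasPow x M l := by
    have := (hx M (by omega)).2
    rw [h2.next] at this
    have e : l - 1 + 1 = l := by omega
    rwa [e] at this
  -- the cube ending at `z + 2 y - 1`
  have x2 : x (z + 2 * y - 1) = 3 := by
    have e1 := perY (y - 1) (by omega)
    have e2 := perZ (y - 1 + y) (by omega)
    rw [← e1, xy] at e2
    rw [e2]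
    congr 1
    omega
  obtain ⟨hc, nc⟩ := hx (z + 2 * y - 1) (by omega)
  rw [x2] at hc nc
  obtain ⟨w, hw0, hw1, hw2⟩ := hc
  -- (i)
  have hyw : y < w := by
    by_contra hcon
    push Not at hcon
    rcases Nat.lt_or_ge (3 * w) (2 * y) with h3 | h3
    · apply nm
      refine ⟨w, hw0, by omega, ?_⟩
      have e1 : PerOn x w (2 * y - 1 - 3 * w + z) (2 * y - 1 + z) := hw2.mono (by omega) (by omega)
      have e2 := e1.unshift perZ (by omega)
      have e3 := e2.shift perY (by omega)
      exact e3.mono (by omega) (by omega)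
    · rcases Nat.lt_or_ge w y with h4 | h4
      · have e1 : PerOn x w (0 + z) (2 * y - 1 + z) := hw2.mono (by omega) (by omega)
        have e2 := e1.unshift perZ (by omega)
        have e3 : Per x w (2 * y - 1) := fun i hi => e2 i (Nat.zero_le i) hi
        have e4 : Per x y (2 * y - 1) := perY.mono (by omega)
        have hg0 : 0 < Nat.gcd w y := Nat.gcd_pos_of_pos_left _ hw0
        have e5 := e3.gcd e4 (by omega)
        have e6 : Per x (Nat.gcd w y) (3 * y - 1) :=
          perY.ext hy (Nat.gcd_dvd_right w y) (e5.mono (by omega))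
        have hgw : Nat.gcd w y ≤ w := Nat.gcd_le_left y hw0
        exact nm ⟨Nat.gcd w y, hg0, by omega, e6.perOn⟩
      · have hwy : w = y := by omega
        subst hwy
        have e1 := hw2 (z - 1) (by omega) (by omega)
        have e2 := perZ (w - 1) (by omega)
        rw [xz] at e1
        rw [xy] at e2
        have : z - 1 + w = w - 1 + z := by omega
        rw [this, ← e2] at e1
        omega
  -- (ii)
  have hwz : 2 * w < z := by
    by_contra hcon
    push Not at hcon
    have e1 : PerOn x z (z + 2 * y - 1 - 3 * w) (z + 2 * y - 1) := (perZ.mono (by omega)).perOn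
    have e2 := e1.gcd hw2 (by omega)
    have hg0 : 0 < Nat.gcd z w := Nat.gcd_pos_of_pos_left _ hz
    rcases Nat.lt_or_ge (Nat.gcd z w) w with h3 | h3
    · obtain ⟨c, hc⟩ := Nat.gcd_dvd_right z w
      have hc2 : 2 ≤ c := by
        by_contra hc1
        have hc1' : c ≤ 1 := by omega
        have : Nat.gcd z w * c ≤ Nat.gcd z w * 1 := Nat.mul_le_mul_left _ hc1'
        omega
      have hc3 : Nat.gcd z w * 2 ≤ Nat.gcd z w * c := Nat.mul_le_mul_left _ hc2
      apply nc
      exact ⟨Nat.gcd z w, hg0, by omega, e2.mono (by omega) le_rfl⟩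
    · have hgw : Nat.gcd z w = w := le_antisymm (Nat.gcd_le_right z hw0) h3
      have hdvd : w ∣ z := by rw [← hgw]; exact Nat.gcd_dvd_left z w
      have e3 : Per x w M := perZ.of_window hz hdvd hw2 (by omega) (by omega)
      obtain ⟨c, hc⟩ := hdvd
      have hc2 : 2 ≤ c := by
        by_contra hc1
        have hc1' : c ≤ 1 := by omega
        have : w * c ≤ w * 1 := Nat.mul_le_mul_left _ hc1'
        omega
      have hc3 : w * 2 ≤ w * c := Nat.mul_le_mul_left _ hc2
      have hc4 : l * (w * 2) ≤ l * z := Nat.mul_le_mul_left l (by omega)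
      have hc5 : l * (w * 2) = 2 * (l * w) := by ring
      have hc6 : 0 < l * w := Nat.mul_pos (by omega) hw0
      exact nM ⟨w, hw0, by omega, e3.perOn⟩
  -- (iii)
  obtain ⟨e, he⟩ : ∃ e, w = y + e := ⟨w - y, by omega⟩
  obtain ⟨r, hr⟩ : ∃ r, z = 2 * y + r := ⟨z - 2 * y, by omega⟩
  have he0 : 0 < e := by omega
  have her : 2 * e < r := by omega
  have hry : r ≤ y := by omega
  have pe : Per x e (y - 1) := by
    intro i hi
    have e1 := perZ i (by omega)
    have e2 := hw2 (i + z) (by omega) (by omega)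
    have e3 := perZ (i + y + e) (by omega)
    have e4 := perY (i + e) (by omega)
    have e5 : i + z + w = i + y + e + z := by omega
    have e6 : i + e + y = i + y + e := by omega
    rw [e5, ← e3] at e2
    rw [e6] at e4
    rw [e1, e2, e4]
  have xe : x (e - 1) = 2 := by
    have e1 := hw2 (z - 1) (by omega) (by omega)
    have e2 := perZ (e - 1 + y) (by omega)
    have e3 := perY (e - 1) (by omega)
    have e4 : z - 1 + w = e - 1 + y + z := by omega
    rw [e4, ← e2, ← e3, xz] at e1
    exact e1.symm
  have rel : ∀ i, 1 ≤ i → i < e → x (r - 1 - i) = x (e - 1 - i) := by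
    intro i hi1 hi2
    have e1 := perY (r - 1 - i) (by omega)
    have e2 := perY (r - 1 - i + y) (by omega)
    have e3 := hw2 (z - 1 - i) (by omega) (by omega)
    have e4 := perZ (e - 1 - i + y) (by omega)
    have e5 := perY (e - 1 - i) (by omega)
    have e6 : r - 1 - i + y + y = z - 1 - i := by omega
    have e7 : z - 1 - i + w = e - 1 - i + y + z := by omega
    rw [e7, ← e4, ← e5] at e3
    rw [e1, e2, e6, e3]
  -- a small period of `Y'` gives a cube
  have fin : ∀ g, 0 < g → Per x g (y - 1) → 3 * g ≤ y - 1 → False := by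
    intro g hg0 hg hg3
    apply nm
    refine ⟨g, hg0, by omega, ?_⟩
    have e1 : PerOn x g (y - 1 - 3 * g) (y - 1) := hg.perOn
    have e2 := e1.shift (perY.mul 2) (by omega)
    exact e2.mono (by omega) (by omega)
  have hg0 : 0 < Nat.gcd e (r - e) := Nat.gcd_pos_of_pos_left _ he0
  have hge : Nat.gcd e (r - e) ≤ e := Nat.gcd_le_left _ he0
  have hgr : 2 * Nat.gcd e (r - e) ≤ r - e := by
    obtain ⟨c, hc⟩ := Nat.gcd_dvd_right e (r - e)
    have hc2 : 2 ≤ c := by
      by_contra hc1
      have hc1' : c ≤ 1 := by omega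
      have : Nat.gcd e (r - e) * c ≤ Nat.gcd e (r - e) * 1 := Nat.mul_le_mul_left _ hc1'
      omega
    have hc3 : Nat.gcd e (r - e) * 2 ≤ Nat.gcd e (r - e) * c := Nat.mul_le_mul_left _ hc2
    omega
  rcases Nat.lt_or_ge r y with hr1 | hr1
  · -- `r < y`
    have xr : x (r - 1) = 2 := by
      have e1 := perY (r - 1) (by omega)
      have e2 := perY (r - 1 + y) (by omega)
      have e3 : r - 1 + y + y = z - 1 := by omega
      rw [e1, e2, e3, xz]
    have pr : Per x (r - e) r := by
      intro i hi
      rcases Nat.eq_zero_or_pos (e - 1 - i) with h0 | h0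
      · have hi' : i = e - 1 := by omega
        have e3 : i + (r - e) = r - 1 := by omega
        rw [e3, xr, hi', xe]
      · have e1 := rel (e - 1 - i) h0 (by omega)
        have e2 : r - 1 - (e - 1 - i) = i + (r - e) := by omega
        have e3 : e - 1 - (e - 1 - i) = i := by omega
        rw [e2, e3] at e1
        exact e1.symm
    have pg : Per x (Nat.gcd e (r - e)) r := (pe.mono (by omega)).gcd pr (by omega)
    have pg' : Per x (Nat.gcd e (r - e)) (y - 1) :=
      pe.ext he0 (Nat.gcd_dvd_left _ _) (pg.mono (by omega))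
    exact fin _ hg0 pg' (by omega)
  · -- `r = y`
    have hry' : r = y := by omega
    have pr : Per x (r - e) (y - 1) := by
      intro i hi
      have e1 := rel (e - 1 - i) (by omega) (by omega)
      have e2 : r - 1 - (e - 1 - i) = i + (r - e) := by omega
      have e3 : e - 1 - (e - 1 - i) = i := by omega
      rw [e2, e3] at e1
      exact e1.symm
    have pg : Per x (Nat.gcd e (r - e)) (y - 1) := pe.gcd pr (by omega)
    rcases Nat.lt_or_ge (3 * Nat.gcd e (r - e)) y with h3 | h3
    · exact fin _ hg0 pg (by omega)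
    · have hy3 : y = 3 * e := by omega
      -- a fourth power ends at `4 y - 1`
      have x4 : x (z + y - 1) = 3 := by
        have e2 := perZ (y - 1) (by omega)
        rw [xy] at e2
        rw [e2]
        congr 1
        omega
      have nc4 := (hx (z + y - 1) (by omega)).2
      rw [x4] at nc4
      apply nc4
      refine ⟨e, he0, by omega, ?_⟩
      -- values
      have v1 : ∀ j, j + 1 < 3 * e → x (6 * e + j) = x j := by
        intro j hj
        have e1 := perY.mul 2 j (by omega)
        rw [e1]; congr 1; omega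
      have v2 : ∀ j, j + 1 < 3 * e → x (9 * e + j) = x j := by
        intro j hj
        have e1 := perZ j (by omega)
        rw [e1]; congr 1; omega
      have v3 : x (9 * e - 1) = 2 := by rw [← xm]; congr 1; omega
      have p2 : x (2 * e - 1) = 2 := by
        have := pe (e - 1) (by omega)
        rw [xe] at this
        rw [show 2 * e - 1 = e - 1 + e by omega]
        exact this.symm
      intro i hi1 hi2
      rcases Nat.lt_or_ge i (8 * e) with c1 | c1
      · -- `i = 8 e - 1`
        have ei : i = 6 * e + (2 * e - 1) := by omega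
        have ei' : i + e = 9 * e - 1 := by omega
        rw [ei', v3, ei, v1 _ (by omega), p2]
      · rcases Nat.lt_or_ge i (9 * e - 1) with c2 | c2
        · -- `i = 8 e + j`
          obtain ⟨j, hj⟩ : ∃ j, i = 6 * e + (j + 2 * e) := ⟨i - 8 * e, by omega⟩
          have hi' : i + e = 9 * e + j := by omega
          rw [hi', v2 j (by omega), hj, v1 _ (by omega)]
          exact ((pe.mul 2) j (by omega)).symm
        · rcases Nat.lt_or_ge i (9 * e) with c3 | c3
          · have ei : i = 9 * e - 1 := by omega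
            have ei' : i + e = 9 * e + (e - 1) := by omega
            rw [ei', v2 _ (by omega), xe, ei, v3]
          · obtain ⟨j, hj⟩ : ∃ j, i = 9 * e + j := ⟨i - 9 * e, by omega⟩
            have ei' : i + e = 9 * e + (j + e) := by omega
            rw [ei', v2 _ (by omega), hj, v2 _ (by omega)]
            exact pe j (by omega)

/-- Step B: if the early event has letter `3` and the late one letter `2`, then `z ≥ k y + 1`. -/
theorem stepB {x : ℕ → ℕ} {n m y k M z l : ℕ} (hx : Rule x n) (h1 : Event x n 3 m y k)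
    (h2 : Event x n 2 M z l) (hmM : m ≤ M) : m + 2 ≤ z := by
  have hzy := fw_ineq h1 h2 (by norm_num) hmM
  by_contra hcon
  push Not at hcon
  have hk := h1.hk
  have hy := h1.hy
  have hm := h1.hm
  have hz := h2.hy
  have hl := h2.hk
  have hM := h2.hm
  have hn := h1.hn
  have hl3 : 3 * z ≤ l * z := Nat.mul_le_mul_right z hl
  rcases Nat.lt_or_ge k 4 with hk4 | hk4
  · have hk3 : k = 3 := by omega
    subst hk3
    have hm' : m = 3 * y - 1 := by omega
    subst hm'
    exact stepB3 hx h1 h2 (by omega) (by omega)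
  · obtain ⟨q, rfl⟩ : ∃ q, k = q + 1 := ⟨k - 1, by omega⟩
    rw [Nat.add_sub_cancel] at hzy
    rw [Nat.add_mul, Nat.one_mul] at hm
    have hq : 3 * y ≤ q * y := Nat.mul_le_mul_right y (by omega)
    rcases Nat.lt_or_ge z (m + 1) with hz1 | hz1
    · -- the prefix of length `2 z - 1` ends with a cube
      have e1 : x (2 * z - 1) = 2 := by
        have := h2.per (z - 1) (by omega)
        rw [h2.letter] at this
        rw [show 2 * z - 1 = z - 1 + z by omega]
        exact this.symm
      have hn2 := (hx (2 * z - 1) (by omega)).2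
      rw [e1] at hn2
      apply hn2
      refine ⟨y, hy, by omega, ?_⟩
      have e2 : PerOn x y 0 (z - 1) := (h1.per.mono (by omega)).perOn
      have e3 := e2.shift h2.per (by omega)
      exact e3.mono (by omega) (by omega)
    · have hz2 : z = m + 1 := by omega
      have e1 := h2.letter
      rw [hz2, Nat.add_sub_cancel, h1.next] at e1
      omega

/-- The key theorem. -/
theorem key {x : ℕ → ℕ} {n m₁ y₁ k₁ m₂ y₂ k₂ : ℕ} (hx : Rule x n) (h3 : Event x n 3 m₁ y₁ k₁)
    (h2 : Event x n 2 m₂ y₂ k₂) : 3 * n + 5 ≤ m₂ := by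
  rcases Nat.lt_or_ge m₂ m₁ with h | h
  · exact (stepA hx h2 h3 h.le).elim
  · have h1 := stepB hx h3 h2 h
    have hn := h3.hn
    have hm := h2.hm
    have hk := h2.hk
    have : 3 * y₂ ≤ k₂ * y₂ := Nat.mul_le_mul_right _ hk
    omega

end Pool.Agent.Work.MP_d3dc9d_co
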