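import Pool.Agent.Work.MP_d3dc9d_co.Defs
import Pool.Agent.Work.MP_d3dc9d_co.Key

/-!
# From lists to infinite words
-/

set_option autoImplicit false

namespace Pool.Agent.Work.MP_d3dc9d_co

/-- the prefix of length `m` of the infinite word `x` -/
def pre (x : ℕ → ℕ) (m : ℕ) : List ℕ := (List.range m).map x

theorem pre_length (x : ℕ → ℕ) (m : ℕ) : (pre x m).length = m := by simp [pre]

theorem pre_get (x : ℕ → ℕ) {m i : ℕ} (h : i < m) : (pre x m)[i]? = some (x i) := by
  simp [pre, h]

theorem flat_length (Y : List ℕ) (k : ℕ) : ((List.replicate k Y).flatten).length = k * Y.length := by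
  simp

theorem flat_get (Y : List ℕ) : ∀ (k j : ℕ), j < k * Y.length →
    ((List.replicate k Y).flatten)[j]? = Y[j % Y.length]? := by
  intro k
  induction k with
  | zero => intro j hj; simp at hj
  | succ k ih =>
    intro j hj
    rw [List.replicate_succ, List.flatten_cons]
    rcases Nat.lt_or_ge j Y.length with h | h
    · rw [List.getElem?_append_left h, Nat.mod_eq_of_lt h]
    · rw [List.getElem?_append_right h, ih (j - Y.length) (by rw [Nat.add_mul] at hj; omega),
        ← Nat.mod_eq_sub_mod h]

theorem hasPow_iff (x : ℕ → ℕ) (m k : ℕ) (_hk : 1 ≤ k) :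
    (∃ X Y : List ℕ, Y ≠ [] ∧ pre x m = X ++ (List.replicate k Y).flatten) ↔ HasPow x m k := by
  constructor
  · rintro ⟨X, Y, hY, h⟩
    have hp : 0 < Y.length := List.length_pos_iff.2 hY
    have hlen : m = X.length + k * Y.length := by
      have := congrArg List.length h
      rw [pre_length, List.length_append, flat_length] at this
      exact this
    have hget : ∀ i, X.length ≤ i → i < m → some (x i) = Y[(i - X.length) % Y.length]? := by
      intro i hi hi'
      rw [← pre_get x hi', h, List.getElem?_append_right hi, flat_get Y k _ (by omega)]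
    refine ⟨Y.length, hp, by omega, ?_⟩
    intro i hi hi'
    have e1 := hget i (by omega) (by omega)
    have e2 := hget (i + Y.length) (by omega) hi'
    have e3 : i + Y.length - X.length = i - X.length + Y.length := by omega
    rw [e3, Nat.add_mod_right, ← e1] at e2
    exact (Option.some.inj e2).symm
  · rintro ⟨p, hp, hkp, hper⟩
    refine ⟨pre x (m - k * p), pre (fun i => x (m - k * p + i)) p, ?_, ?_⟩
    · intro h
      have := congrArg List.length h
      rw [pre_length] at this
      simp at this
      omega
    · apply List.ext_getElem?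
      intro i
      rcases Nat.lt_or_ge i m with hi | hi
      · rw [pre_get x hi]
        rcases Nat.lt_or_ge i (m - k * p) with h1 | h1
        · rw [List.getElem?_append_left (by rw [pre_length]; exact h1), pre_get x h1]
        · rw [List.getElem?_append_right (by rw [pre_length]; exact h1), pre_length,
            flat_get _ k _ (by rw [pre_length]; omega), pre_length]
          have hmod : (i - (m - k * p)) % p < p := Nat.mod_lt _ hp
          rw [pre_get _ hmod]
          congr 1
          rw [perOn_iff] at hper
          have := hper.mod (i - (m - k * p)) (by omega)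
          rw [← this]
          congr 1
          omega
      · rw [List.getElem?_eq_none (by rw [pre_length]; exact hi), List.getElem?_eq_none]
        rw [List.length_append, flat_length, pre_length, pre_length]
        omega

theorem powset_bdd (S : List ℕ) :
    BddAbove {k : ℕ | ∃ X Y : List ℕ, Y ≠ [] ∧ S = X ++ (List.replicate k Y).flatten} := by
  refine ⟨S.length, ?_⟩
  rintro k ⟨X, Y, hY, h⟩
  have hp : 0 < Y.length := List.length_pos_iff.2 hY
  have := congrArg List.length h
  rw [List.length_append, flat_length] at this
  have h2 : k * 1 ≤ k * Y.length := Nat.mul_le_mul_left k hp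
  omega

theorem le_curl {S X Y : List ℕ} {k : ℕ} (hY : Y ≠ [])
    (h : S = X ++ (List.replicate k Y).flatten) : k ≤ curl S :=
  le_csSup (powset_bdd S) ⟨X, Y, hY, h⟩

theorem curl_spec {S : List ℕ} (hS : S ≠ []) :
    ∃ X Y : List ℕ, Y ≠ [] ∧ S = X ++ (List.replicate (curl S) Y).flatten := by
  have hne : {k : ℕ | ∃ X Y : List ℕ, Y ≠ [] ∧ S = X ++ (List.replicate k Y).flatten}.Nonempty :=
    ⟨1, [], S, hS, by simp⟩
  exact Nat.sSup_mem hne (powset_bdd S)

theorem one_le_curl {S : List ℕ} (hS : S ≠ []) : 1 ≤ curl S :=
  le_curl (X := []) hS (by simp)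

theorem pre_ne_nil {x : ℕ → ℕ} {m : ℕ} (hm : 0 < m) : pre x m ≠ [] := by
  intro h
  have := congrArg List.length h
  rw [pre_length] at this
  simp at this
  omega

theorem curl_pre {x : ℕ → ℕ} {m : ℕ} (hm : 0 < m) :
    HasPow x m (curl (pre x m)) ∧ ∀ k, HasPow x m k → k ≤ curl (pre x m) := by
  have h1 := one_le_curl (pre_ne_nil (x := x) hm)
  refine ⟨(hasPow_iff x m _ h1).1 (curl_spec (pre_ne_nil hm)), ?_⟩
  intro k hk
  rcases Nat.eq_zero_or_pos k with rfl | hk0
  · omega
  · obtain ⟨X, Y, hY, h⟩ := (hasPow_iff x m k hk0).2 hk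
    exact le_curl hY h

/-- the infinite word generated by `S` -/
noncomputable def word (S : List ℕ) (i : ℕ) : ℕ :=
  if i < S.length then S.getD i 0 else curl (extend^[i - S.length] S)

theorem iter_eq (S : List ℕ) (t : ℕ) : extend^[t] S = pre (word S) (S.length + t) := by
  induction t with
  | zero =>
    apply List.ext_getElem?
    intro i
    rcases Nat.lt_or_ge i S.length with hi | hi
    · rw [pre_get _ (by omega)]
      simp only [Function.iterate_zero, id]
      simp [word, hi]
    · rw [List.getElem?_eq_none (by simpa using hi),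
        List.getElem?_eq_none (by rw [pre_length]; omega)]
  | succ t ih =>
    rw [Function.iterate_succ_apply', extend, ← add_assoc]
    conv_rhs => rw [pre, List.range_succ, List.map_append]
    have hw : word S (S.length + t) = curl (extend^[t] S) := by
      simp [word]
    rw [List.map_singleton, hw, ← pre, ← ih]

theorem word_eq (S : List ℕ) {m : ℕ} (hm : S.length ≤ m) : word S m = curl (pre (word S) m) := by
  obtain ⟨t, rfl⟩ : ∃ t, m = S.length + t := ⟨m - S.length, by omega⟩
  rw [← iter_eq]
  simp [word]

theorem word_rule {S : List ℕ} (hS : S ≠ []) : Rule (word S) S.length := by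
  have h0 : 0 < S.length := List.length_pos_iff.2 hS
  intro j hj
  obtain ⟨h1, h2⟩ := curl_pre (x := word S) (m := j) (by omega)
  rw [word_eq S hj]
  refine ⟨h1, fun h => ?_⟩
  have := h2 _ h
  omega

theorem curl_ne_one {S : List ℕ} {t : ℕ} (h : (t : ℕ∞) < tau S) : curl (extend^[t] S) ≠ 1 := by
  intro h1
  have : tau S ≤ t := sInf_le ⟨t, rfl, h1⟩
  exact absurd h (not_lt.2 this)

/-- If a letter in front shortens the tail, then at some time it changes the curling number. -/
theorem exists_change {S : List ℕ} {c : ℕ} (h : tau (c :: S) < tau S) :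
    ∃ t : ℕ, (t : ℕ∞) < tau S ∧ curl (c :: extend^[t] S) ≠ curl (extend^[t] S) := by
  by_contra hcon
  push Not at hcon
  have hit : ∀ t : ℕ, (t : ℕ∞) ≤ tau S → extend^[t] (c :: S) = c :: extend^[t] S := by
    intro t
    induction t with
    | zero => intro _; rfl
    | succ t ih =>
      intro ht
      have ht' : (t : ℕ∞) < tau S := lt_of_lt_of_le (by exact_mod_cast Nat.lt_succ_self t) ht
      rw [Function.iterate_succ_apply', Function.iterate_succ_apply', ih ht'.le, extend, extend,
        hcon t ht']
      rfl
  refine absurd h (not_lt.2 ?_)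
  refine le_sInf ?_
  rintro a ⟨t, rfl, ht⟩
  by_contra hlt
  push Not at hlt
  rw [hit t hlt.le, hcon t hlt] at ht
  exact curl_ne_one hlt ht

theorem exists_event {S : List ℕ} (hS : S ≠ []) {c : ℕ} (h : tau (c :: S) < tau S) :
    ∃ (t y k : ℕ), (t : ℕ∞) < tau S ∧ Event (word S) S.length c (S.length + t) y k := by
  obtain ⟨t, ht, hne⟩ := exists_change h
  have h0 : 0 < S.length := List.length_pos_iff.2 hS
  set x := word S with hx
  set m := S.length + t with hm
  have hiter : extend^[t] S = pre x m := iter_eq S t
  rw [hiter] at hne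
  have hne1 : curl (pre x m) ≠ 1 := by rw [← hiter]; exact curl_ne_one ht
  have hge1 : 1 ≤ curl (pre x m) := one_le_curl (pre_ne_nil (by omega))
  -- the longer word
  let x' : ℕ → ℕ := fun i => if i = 0 then c else x (i - 1)
  have hcons : c :: pre x m = pre x' (m + 1) := by
    apply List.ext_getElem?
    intro i
    rcases Nat.lt_or_ge i (m + 1) with hi | hi
    · rw [pre_get x' hi]
      rcases Nat.eq_zero_or_pos i with rfl | hi0
      · simp [x']
      · obtain ⟨j, rfl⟩ : ∃ j, i = j + 1 := ⟨i - 1, by omega⟩
        rw [List.getElem?_cons_succ, pre_get x (by omega)]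
        simp [x']
    · rw [List.getElem?_eq_none (by rw [List.length_cons, pre_length]; exact hi),
        List.getElem?_eq_none (by rw [pre_length]; exact hi)]
  have hgt : curl (pre x m) < curl (pre x' (m + 1)) := by
    refine lt_of_le_of_ne ?_ (fun h => hne (by rw [hcons]; exact h.symm))
    obtain ⟨X, Y, hY, hXY⟩ := curl_spec (pre_ne_nil (x := x) (m := m) (by omega))
    refine le_curl (X := c :: X) hY ?_
    rw [← hcons]
    conv_lhs => rw [hXY]
    rfl
  obtain ⟨⟨p, hp0, hp1, hp2⟩, -⟩ := curl_pre (x := x') (m := m + 1) (by omega)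
  set K := curl (pre x' (m + 1)) with hK
  obtain ⟨-, hmax⟩ := curl_pre (x := x) (m := m) (by omega)
  have hKp : K * p = m + 1 := by
    by_contra hKp
    have hle : K * p ≤ m := by omega
    have : HasPow x m K := by
      refine ⟨p, hp0, hle, ?_⟩
      intro i hi hi'
      have := hp2 (i + 1) (by omega) (by omega)
      have e : i + 1 + p = (i + p) + 1 := by omega
      rw [e] at this
      simpa [x'] using this
    have := hmax K this
    omega
  have hper : Per x p m := by
    intro i hi
    have := hp2 (i + 1) (by omega) (by omega)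
    have e : i + 1 + p = (i + p) + 1 := by omega
    rw [e] at this
    simpa [x'] using this
  have hK3 : 3 ≤ K := by omega
  have hKp3 : 3 * p ≤ K * p := Nat.mul_le_mul_right p hK3
  refine ⟨t, p, K, ht, ⟨hK3, hp0, hKp.symm, hper, ?_, ?_, by omega⟩⟩
  · have := hp2 0 (by omega) (by omega)
    rw [Nat.zero_add] at this
    simp only [x', if_true] at this
    rw [if_neg (by omega)] at this
    exact this.symm
  · have e1 : x m = curl (pre x m) := word_eq S (by omega)
    have e2 : K - 1 ≤ curl (pre x m) := by
      apply hmax
      refine ⟨p, hp0, ?_, hper.perOn⟩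
      rw [Nat.sub_mul, Nat.one_mul]
      omega
    change x m = K - 1
    omega

end Pool.Agent.Work.MP_d3dc9d_co
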