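import Mathlib

/-!
# The curling number, its iteration and doubly rotten sequences
-/

set_option autoImplicit false

namespace Pool.Agent.Work.MP_d3dc9d_co

/-- The curling number of a finite sequence `S`: the largest `k` such that `S = X Y^k` for some
sequence `X` (possibly empty) and some nonempty sequence `Y`. -/
noncomputable def curl (S : List ℕ) : ℕ :=
  sSup {k : ℕ | ∃ X Y : List ℕ, Y ≠ [] ∧ S = X ++ (List.replicate k Y).flatten}

/-- One step of the iteration: append the curling number as a new last term. -/
noncomputable def extend (S : List ℕ) : List ℕ := S ++ [curl S]

/-- The tail length of `S`: the least `t` such that after `t` steps the curling number is `1`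
(and `∞` if there is no such `t`). -/
noncomputable def tau (S : List ℕ) : ℕ∞ :=
  sInf {a : ℕ∞ | ∃ t : ℕ, a = t ∧ curl (extend^[t] S) = 1}

/-- `S` is doubly rotten: placing a `2` in front and placing a `3` in front both give a smaller
tail length. -/
def DoublyRotten (S : List ℕ) : Prop := tau (2 :: S) < tau S ∧ tau (3 :: S) < tau S

end Pool.Agent.Work.MP_d3dc9d_co
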