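import Pool.Agent.Work.MP_d3dc9d_co.Defs

/-!
# The function `Ω`
-/

set_option autoImplicit false

namespace Pool.Agent.Work.MP_d3dc9d_co

/-- `Ω(n)`: the maximum of the tail lengths of all words of length `n` over `{2, 3}`. -/
noncomputable def Omega (n : ℕ) : ℕ∞ :=
  ⨆ (S : List ℕ) (_ : S.length = n) (_ : ∀ a ∈ S, a = 2 ∨ a = 3), tau S

end Pool.Agent.Work.MP_d3dc9d_co
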