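import Mathlib

/-!
# Periods of prefixes of infinite words
-/

set_option autoImplicit false

namespace Pool.Agent.Work.MP_d3dc9d_co

/-- the prefix of length `L` of `f` has period `p` -/
def Per (f : ℕ → ℕ) (p L : ℕ) : Prop := ∀ i, i + p < L → f i = f (i + p)

theorem Per.mono {f : ℕ → ℕ} {p L L' : ℕ} (h : Per f p L) (hL : L' ≤ L) : Per f p L' :=
  fun i hi => h i (by omega)

theorem Per.mod {f : ℕ → ℕ} {p L : ℕ} (h : Per f p L) :
    ∀ i, i < L → f i = f (i % p) := by
  intro i
  induction i using Nat.strong_induction_on with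
  | _ i ih =>
    intro hi
    rcases Nat.eq_zero_or_pos p with rfl | hp
    · simp
    rcases Nat.lt_or_ge i p with h1 | h1
    · rw [Nat.mod_eq_of_lt h1]
    · have e := h (i - p) (by omega)
      rw [Nat.sub_add_cancel h1] at e
      rw [← e, ih (i - p) (by omega) (by omega), ← Nat.mod_eq_sub_mod h1]

theorem per_of_mod {f : ℕ → ℕ} {p L : ℕ} (h : ∀ i, i < L → f i = f (i % p)) : Per f p L := by
  intro i hi
  rw [h i (by omega), h (i + p) hi, Nat.add_mod_right]

theorem Per.congr {f : ℕ → ℕ} {p L i j : ℕ} (h : Per f p L) (hi : i < L) (hj : j < L)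
    (hij : i % p = j % p) : f i = f j := by
  rw [h.mod i hi, h.mod j hj, hij]

/-- If the prefix of length `L` has period `p`, the prefix of length `p` has period `g` and `g ∣ p`,
then the prefix of length `L` has period `g`. -/
theorem Per.ext {f : ℕ → ℕ} {p g L : ℕ} (h : Per f p L) (hp : 0 < p) (hg : g ∣ p)
    (h' : Per f g p) : Per f g L := by
  apply per_of_mod
  intro i hi
  rw [h.mod i hi, h'.mod (i % p) (Nat.mod_lt _ hp), Nat.mod_mod_of_dvd _ hg]

theorem per_iff_hasPeriod {f : ℕ → ℕ} {p L : ℕ} :
    Per f p L ↔ ((List.range L).map f).HasPeriod p := by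
  rw [List.hasPeriod_iff_getElem?]
  constructor
  · intro h i hi
    rw [List.length_map, List.length_range] at hi
    rw [List.getElem?_map, List.getElem?_map, List.getElem?_range (by omega),
      List.getElem?_range (by omega)]
    simp only [Option.map_some]
    rw [h i (by omega)]
  · intro h i hi
    have := h i (by rw [List.length_map, List.length_range]; omega)
    rw [List.getElem?_map, List.getElem?_map, List.getElem?_range (by omega),
      List.getElem?_range (by omega)] at this
    simpa using this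

/-- Fine and Wilf -/
theorem Per.gcd {f : ℕ → ℕ} {p q L : ℕ} (h : Per f p L) (h' : Per f q L)
    (hL : p + q ≤ L + Nat.gcd p q) : Per f (Nat.gcd p q) L := by
  rw [per_iff_hasPeriod] at h h' ⊢
  refine h.gcd h' ?_
  rw [List.length_map, List.length_range]
  omega

/-- period on a window `[a, b)` -/
def PerOn (f : ℕ → ℕ) (p a b : ℕ) : Prop := ∀ i, a ≤ i → i + p < b → f i = f (i + p)

theorem PerOn.mono {f : ℕ → ℕ} {p a b a' b' : ℕ} (h : PerOn f p a b) (ha : a ≤ a') (hb : b' ≤ b) :
    PerOn f p a' b' := fun i hi hi' => h i (by omega) (by omega)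

theorem Per.perOn {f : ℕ → ℕ} {p a b : ℕ} (h : Per f p b) : PerOn f p a b :=
  fun i _ hi' => h i hi'

theorem perOn_iff {f : ℕ → ℕ} {p a b : ℕ} :
    PerOn f p a b ↔ Per (fun i => f (a + i)) p (b - a) := by
  constructor
  · intro h i hi
    have := h (a + i) (by omega) (by omega)
    simpa [add_assoc] using this
  · intro h i hi hi'
    have := h (i - a) (by omega)
    simp only at this
    rwa [← add_assoc, Nat.add_sub_cancel' hi] at this

theorem PerOn.gcd {f : ℕ → ℕ} {p q a b : ℕ} (h : PerOn f p a b) (h' : PerOn f q a b)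
    (hL : p + q + a ≤ b + Nat.gcd p q) : PerOn f (Nat.gcd p q) a b := by
  rcases Nat.lt_or_ge b a with hab | hab
  · intro i hi hi'; omega
  · rw [perOn_iff] at h h' ⊢
    exact h.gcd h' (by omega)

/-- shifting a window by a period of a longer prefix -/
theorem PerOn.shift {f : ℕ → ℕ} {p q a b L : ℕ} (h : PerOn f p a b) (hq : Per f q L)
    (hb : b + q ≤ L) : PerOn f p (a + q) (b + q) := by
  intro i hi hi'
  have e1 := hq (i - q) (by omega)
  have e2 := hq (i - q + p) (by omega)
  have e3 := h (i - q) (by omega) (by omega)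
  rw [Nat.sub_add_cancel (by omega)] at e1
  have : i - q + p + q = i + p := by omega
  rw [this] at e2
  rw [← e1, ← e2, e3]

theorem PerOn.unshift {f : ℕ → ℕ} {p q a b L : ℕ} (h : PerOn f p (a + q) (b + q)) (hq : Per f q L)
    (hb : b + q ≤ L) : PerOn f p a b := by
  intro i hi hi'
  have e1 := hq i (by omega)
  have e2 := hq (i + p) (by omega)
  have e3 := h (i + q) (by omega) (by omega)
  rw [e1, e2, e3]
  congr 1
  omega

/-- If the prefix of length `L` has period `z`, and some window of length at least `z` has period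
`w ∣ z`, then the whole prefix has period `w`. -/
theorem Per.of_window {f : ℕ → ℕ} {z w a b L : ℕ} (hz : Per f z L) (hz0 : 0 < z) (hw : w ∣ z)
    (h : PerOn f w a b) (hab : a + z ≤ b) (hb : b ≤ L) : Per f w L := by
  have hwin : ∀ i j, a ≤ i → i < b → a ≤ j → j < b → i % w = j % w → f i = f j := by
    intro i j hi hi' hj hj' hij
    rw [perOn_iff] at h
    have key := h.congr (i := i - a) (j := j - a) (by omega) (by omega) (by
      have h1 : (i - a + a) ≡ (j - a + a) [MOD w] := by
        rw [Nat.sub_add_cancel hi, Nat.sub_add_cancel hj]; exact hij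
      exact Nat.ModEq.add_right_cancel' a h1)
    rwa [Nat.add_sub_cancel' hi, Nat.add_sub_cancel' hj] at key
  -- representative of a residue class modulo `z` in the window
  have hrep : ∀ i, ∃ j, a ≤ j ∧ j < a + z ∧ j % z = i % z := by
    intro i
    refine ⟨a + (i + (z - a % z)) % z, by omega, by have := Nat.mod_lt (i + (z - a % z)) hz0; omega, ?_⟩
    rw [Nat.add_mod, Nat.mod_mod, ← Nat.add_mod]
    have h1 : a % z ≤ z := (Nat.mod_lt a hz0).le
    have h2 := Nat.div_add_mod a z
    have h3 : a + (i + (z - a % z)) = i + z * (a / z + 1) := by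
      have : a % z + (z - a % z) = z := Nat.add_sub_cancel' h1
      rw [Nat.mul_add, Nat.mul_one]
      omega
    rw [h3, Nat.add_mul_mod_self_left]
  intro i hi
  obtain ⟨j, hj1, hj2, hj3⟩ := hrep i
  obtain ⟨j', hj1', hj2', hj3'⟩ := hrep (i + w)
  have e1 : f i = f j := hz.congr (by omega) (by omega) hj3.symm
  have e2 : f (i + w) = f j' := hz.congr hi (by omega) hj3'.symm
  rw [e1, e2]
  apply hwin j j' hj1 (by omega) hj1' (by omega)
  have h1 : j ≡ i [MOD w] := Nat.ModEq.of_dvd hw hj3
  have h2 : j' ≡ i + w [MOD w] := Nat.ModEq.of_dvd hw hj3'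
  have h3 : i + w ≡ i [MOD w] := by simp [Nat.ModEq]
  exact h1.trans (h2.trans h3).symm

end Pool.Agent.Work.MP_d3dc9d_co
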